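import Mathlib

/-! PR-J6 (MP_15abe0_co): Cauchy-Schwarz over `z`, and a three edges inequality. -/

namespace Pool.Agent.helper1.PR

open Finset

theorem cs_sum {ι κ : Type*} [DecidableEq κ] (Ω : Finset ι) (Z : Finset κ) (hZ : Z.Nonempty)
    (g : κ → ι → ℝ) (a : ι → ℝ) (ha : ∀ p ∈ Ω, |a p| ≤ 1) (hg : ∀ z ∈ Z, ∀ p ∈ Ω, |g z p| ≤ 1)
    {C : ℝ} (hC : 0 ≤ C)
    (h : ∀ z₁ ∈ Z, ∀ z₂ ∈ Z, z₁ ≠ z₂ → ∑ p ∈ Ω, g z₁ p * g z₂ p ≤ C * #Ω) :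
    |∑ p ∈ Ω, a p * ∑ z ∈ Z, g z p| ≤ #Z * #Ω * √(1 / #Z + C) := by
  have hZ0 : (0 : ℝ) < #Z := by exact_mod_cast hZ.card_pos
  have hΩ0 : (0 : ℝ) ≤ #Ω := Nat.cast_nonneg _
  -- squares of `a`
  have h1 : ∑ p ∈ Ω, a p ^ 2 ≤ #Ω := by
    calc ∑ p ∈ Ω, a p ^ 2 ≤ ∑ p ∈ Ω, (1 : ℝ) := by
          refine sum_le_sum fun p hp => ?_
          rw [← sq_abs]
          exact pow_le_one₀ (abs_nonneg _) (ha p hp)
      _ = #Ω := by simp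
  -- squares of the sum over `z`
  have h2 : ∑ p ∈ Ω, (∑ z ∈ Z, g z p) ^ 2 = ∑ z₁ ∈ Z, ∑ z₂ ∈ Z, ∑ p ∈ Ω, g z₁ p * g z₂ p := by
    calc ∑ p ∈ Ω, (∑ z ∈ Z, g z p) ^ 2
        = ∑ p ∈ Ω, ∑ z₁ ∈ Z, ∑ z₂ ∈ Z, g z₁ p * g z₂ p := by
          refine sum_congr rfl fun p _ => ?_
          rw [sq, sum_mul_sum]
      _ = ∑ z₁ ∈ Z, ∑ p ∈ Ω, ∑ z₂ ∈ Z, g z₁ p * g z₂ p := sum_comm
      _ = _ := sum_congr rfl fun z₁ _ => sum_comm
  have h3 : ∀ z₁ ∈ Z, ∑ z₂ ∈ Z, ∑ p ∈ Ω, g z₁ p * g z₂ p ≤ #Ω + #Z * (C * #Ω) := by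
    intro z₁ hz₁
    rw [← add_sum_erase _ _ hz₁]
    have e1 : ∑ p ∈ Ω, g z₁ p * g z₁ p ≤ #Ω := by
      calc ∑ p ∈ Ω, g z₁ p * g z₁ p ≤ ∑ p ∈ Ω, (1 : ℝ) := by
            refine sum_le_sum fun p hp => ?_
            rw [← sq, ← sq_abs]
            exact pow_le_one₀ (abs_nonneg _) (hg z₁ hz₁ p hp)
        _ = #Ω := by simp
    have e2 : ∑ z₂ ∈ Z.erase z₁, ∑ p ∈ Ω, g z₁ p * g z₂ p ≤ #Z * (C * #Ω) := by
      calc ∑ z₂ ∈ Z.erase z₁, ∑ p ∈ Ω, g z₁ p * g z₂ p ≤ ∑ z₂ ∈ Z.erase z₁, C * #Ω := by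
            refine sum_le_sum fun z₂ hz₂ => ?_
            exact h z₁ hz₁ z₂ (mem_of_mem_erase hz₂) (ne_of_mem_erase hz₂).symm
        _ = #(Z.erase z₁) * (C * #Ω) := by rw [sum_const, nsmul_eq_mul]
        _ ≤ #Z * (C * #Ω) := by
            refine mul_le_mul_of_nonneg_right ?_ (mul_nonneg hC hΩ0)
            exact_mod_cast card_le_card (erase_subset _ _)
    linarith
  have h4 : ∑ p ∈ Ω, (∑ z ∈ Z, g z p) ^ 2 ≤ #Z * (#Ω + #Z * (C * #Ω)) := by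
    rw [h2]
    calc ∑ z₁ ∈ Z, ∑ z₂ ∈ Z, ∑ p ∈ Ω, g z₁ p * g z₂ p ≤ ∑ z₁ ∈ Z, ((#Ω : ℝ) + #Z * (C * #Ω)) :=
          sum_le_sum h3
      _ = _ := by rw [sum_const, nsmul_eq_mul]
  have h5 : (∑ p ∈ Ω, a p * ∑ z ∈ Z, g z p) ^ 2 ≤ (#Z * #Ω) ^ 2 * (1 / #Z + C) := by
    calc (∑ p ∈ Ω, a p * ∑ z ∈ Z, g z p) ^ 2
        ≤ (∑ p ∈ Ω, a p ^ 2) * ∑ p ∈ Ω, (∑ z ∈ Z, g z p) ^ 2 := sum_mul_sq_le_sq_mul_sq _ _ _
      _ ≤ #Ω * (#Z * (#Ω + #Z * (C * #Ω))) :=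
          mul_le_mul h1 h4 (sum_nonneg fun p _ => sq_nonneg _) hΩ0
      _ = (#Z * #Ω) ^ 2 * (1 / #Z + C) := by
          field_simp
  have h6 : |∑ p ∈ Ω, a p * ∑ z ∈ Z, g z p| = √((∑ p ∈ Ω, a p * ∑ z ∈ Z, g z p) ^ 2) :=
    (Real.sqrt_sq_eq_abs _).symm
  rw [h6]
  calc √((∑ p ∈ Ω, a p * ∑ z ∈ Z, g z p) ^ 2) ≤ √((#Z * #Ω) ^ 2 * (1 / #Z + C)) :=
        Real.sqrt_le_sqrt h5
    _ = #Z * #Ω * √(1 / #Z + C) := by
        rw [Real.sqrt_mul (sq_nonneg _), Real.sqrt_sq (mul_nonneg hZ0.le hΩ0)]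

theorem hra {ι κ : Type*} (I : Finset ι) (J : Finset κ) (H : ι → κ → ℝ)
    (hH : ∀ i ∈ I, ∀ j ∈ J, 0 ≤ H i j ∧ H i j ≤ 1) {c : ℝ} (hc : 0 ≤ c)
    (h : c * (#I * #J) ≤ ∑ i ∈ I, ∑ j ∈ J, H i j) :
    c ^ 3 / 32 * (#I * #J) ≤ ∑ i ∈ I, ∑ j ∈ J,
      H i j * ((∑ j' ∈ J, H i j') / #J) * ((∑ i' ∈ I, H i' j) / #I) := by
  rcases I.eq_empty_or_nonempty with rfl | hI
  · simp
  rcases J.eq_empty_or_nonempty with rfl | hJ
  · simp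
  have hI0 : (0 : ℝ) < #I := by exact_mod_cast hI.card_pos
  have hJ0 : (0 : ℝ) < #J := by exact_mod_cast hJ.card_pos
  set r : ι → ℝ := fun i => (∑ j' ∈ J, H i j') / #J with hr
  set s : κ → ℝ := fun j => (∑ i' ∈ I, H i' j) / #I with hs
  have hr0 : ∀ i ∈ I, 0 ≤ r i := fun i hi =>
    div_nonneg (sum_nonneg fun j hj => (hH i hi j hj).1) hJ0.le
  have hs0 : ∀ j ∈ J, 0 ≤ s j := fun j hj =>
    div_nonneg (sum_nonneg fun i hi => (hH i hi j hj).1) hI0.le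
  have hrs : ∀ i, ∑ j ∈ J, H i j = #J * r i := fun i => by
    show ∑ j ∈ J, H i j = #J * ((∑ j' ∈ J, H i j') / #J)
    rw [mul_div_cancel₀ _ hJ0.ne']
  have hss : ∀ j, ∑ i ∈ I, H i j = #I * s j := fun j => by
    show ∑ i ∈ I, H i j = #I * ((∑ i' ∈ I, H i' j) / #I)
    rw [mul_div_cancel₀ _ hI0.ne']
  set A : ι → ℝ := fun i => if r i < c / 4 then 1 else 0 with hA
  set B : κ → ℝ := fun j => if s j < c / 4 then 1 else 0 with hB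
  have key : ∀ i ∈ I, ∀ j ∈ J, (c / 4) ^ 2 * (H i j - A i * H i j - B j * H i j) ≤
      H i j * r i * s j := by
    intro i hi j hj
    have h0 := (hH i hi j hj).1
    have h1 := hr0 i hi
    have h2 := hs0 j hj
    have hP : 0 ≤ H i j * r i * s j := mul_nonneg (mul_nonneg h0 h1) h2
    by_cases ha : r i < c / 4
    · by_cases hb : s j < c / 4
      · simp only [hA, hB, ha, hb, if_true]
        nlinarith [mul_nonneg (sq_nonneg (c / 4)) h0]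
      · simp only [hA, hB, ha, hb, if_true, if_false]
        nlinarith [mul_nonneg (sq_nonneg (c / 4)) h0]
    · by_cases hb : s j < c / 4
      · simp only [hA, hB, ha, hb, if_true, if_false]
        nlinarith [mul_nonneg (sq_nonneg (c / 4)) h0]
      · simp only [hA, hB, ha, hb, if_false]
        have e1 : c / 4 ≤ r i := not_lt.1 ha
        have e2 : c / 4 ≤ s j := not_lt.1 hb
        have e3 : (c / 4) * (c / 4) ≤ r i * s j :=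
          mul_le_mul e1 e2 (by positivity) h1
        have e4 := mul_le_mul_of_nonneg_left e3 h0
        nlinarith
  have hsum : ∑ i ∈ I, ∑ j ∈ J, (c / 4) ^ 2 * (H i j - A i * H i j - B j * H i j) ≤
      ∑ i ∈ I, ∑ j ∈ J, H i j * r i * s j :=
    sum_le_sum fun i hi => sum_le_sum fun j hj => key i hi j hj
  have hAs : ∑ i ∈ I, ∑ j ∈ J, A i * H i j ≤ c / 4 * (#I * #J) := by
    calc ∑ i ∈ I, ∑ j ∈ J, A i * H i j = ∑ i ∈ I, A i * (#J * r i) := by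
          refine sum_congr rfl fun i _ => ?_
          rw [← mul_sum, hrs]
      _ ≤ ∑ i ∈ I, (#J * (c / 4)) := by
          refine sum_le_sum fun i _ => ?_
          by_cases ha : r i < c / 4
          · simp only [hA, ha, if_true, one_mul]
            exact mul_le_mul_of_nonneg_left ha.le hJ0.le
          · simp only [hA, ha, if_false, zero_mul]
            exact mul_nonneg hJ0.le (by linarith)
      _ = c / 4 * (#I * #J) := by rw [sum_const, nsmul_eq_mul]; ring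
  have hBs : ∑ i ∈ I, ∑ j ∈ J, B j * H i j ≤ c / 4 * (#I * #J) := by
    rw [sum_comm]
    calc ∑ j ∈ J, ∑ i ∈ I, B j * H i j = ∑ j ∈ J, B j * (#I * s j) := by
          refine sum_congr rfl fun j _ => ?_
          rw [← mul_sum, hss]
      _ ≤ ∑ j ∈ J, (#I * (c / 4)) := by
          refine sum_le_sum fun j _ => ?_
          by_cases ha : s j < c / 4
          · simp only [hB, ha, if_true, one_mul]
            exact mul_le_mul_of_nonneg_left ha.le hI0.le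
          · simp only [hB, ha, if_false, zero_mul]
            exact mul_nonneg hI0.le (by linarith)
      _ = c / 4 * (#I * #J) := by rw [sum_const, nsmul_eq_mul]; ring
  have hexp : ∑ i ∈ I, ∑ j ∈ J, (c / 4) ^ 2 * (H i j - A i * H i j - B j * H i j) =
      (c / 4) ^ 2 * (∑ i ∈ I, ∑ j ∈ J, H i j - ∑ i ∈ I, ∑ j ∈ J, A i * H i j -
        ∑ i ∈ I, ∑ j ∈ J, B j * H i j) := by
    simp only [← mul_sum, sum_sub_distrib]
  rw [hexp] at hsum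
  have hfin : (c / 4) ^ 2 * (c / 2 * (#I * #J)) ≤ (c / 4) ^ 2 * (∑ i ∈ I, ∑ j ∈ J, H i j -
      ∑ i ∈ I, ∑ j ∈ J, A i * H i j - ∑ i ∈ I, ∑ j ∈ J, B j * H i j) :=
    mul_le_mul_of_nonneg_left (by linarith) (sq_nonneg _)
  calc c ^ 3 / 32 * (#I * #J) = (c / 4) ^ 2 * (c / 2 * (#I * #J)) := by ring
    _ ≤ _ := hfin
    _ ≤ _ := hsum

end Pool.Agent.helper1.PR
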